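import Pool.Agent.W811.LW.Stm2
import Pool.Agent.W502.LW.Ind

/-! Project LW, second round: the inductive choice of the digits with slowly growing density
(adapted from `Pool.Agent.W502.LW.Ind`). -/

set_option autoImplicit false
open Finset Filter Topology
open scoped ENNReal

namespace Pool.Agent.W291.LW

open Pool.Agent.W811.LW Pool.Agent.W502.LW

theorem claimA' (G : ℕ) (α : ℝ) (w : ℕ → ℝ) (κ C W : ℝ≥0∞)
    (hv : ∀ (β : ℝ) (j t : ℕ), BA ((G : ℝ) ^ 4) (j + t) β →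
      ∑ d ∈ range ((G ^ 4) ^ 2), FF G α j (t + 1) (β + (d : ℝ) / ((G : ℝ) ^ 4) ^ (2 * (j + t) + 2))
        ≤ (((G ^ 4) ^ 2 : ℕ) : ℝ≥0∞) * ((κ + κ) * FF G α j t β + C))
    (hh : ∀ (β : ℝ) (j : ℕ), BA ((G : ℝ) ^ 4) j β →
      ∑ d ∈ range ((G ^ 4) ^ 2), FF G α (j + 1) 0 (β + (d : ℝ) / ((G : ℝ) ^ 4) ^ (2 * j + 2))
        ≤ (((G ^ 4) ^ 2 : ℕ) : ℝ≥0∞) * ((κ + κ) * FF G α j 0 β + C))
    (hw2 : ∀ l, w (l + 1) ≤ 2 * w l)
    (n : ℕ) (hW : ∑ j ∈ range (n + 1), ENNReal.ofReal (w (n + j)) ≤ W)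
    (β : ℝ) (hβ : BA ((G : ℝ) ^ 4) n β) :
    ∑ d ∈ range ((G ^ 4) ^ 2), Ph G α w (n + 1) (β + (d : ℝ) / ((G : ℝ) ^ 4) ^ (2 * n + 2))
      ≤ (((G ^ 4) ^ 2 : ℕ) : ℝ≥0∞) * (12 * κ * Ph G α w n β + 6 * C * W) := by
  set N : ℝ≥0∞ := (((G ^ 4) ^ 2 : ℕ) : ℝ≥0∞) with hN
  have w2 : ∀ l, ENNReal.ofReal (w (l + 1)) ≤ 2 * ENNReal.ofReal (w l) := by
    intro l
    have h2 : (2 : ℝ≥0∞) = ENNReal.ofReal 2 := by simp
    rw [h2, ← ENNReal.ofReal_mul (by norm_num)]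
    exact ENNReal.ofReal_le_ofReal (hw2 l)
  have hterm : ∀ j ∈ range (n + 1),
      ∑ d ∈ range ((G ^ 4) ^ 2), ENNReal.ofReal (w (n + 1 + j)) *
        FF G α j (n + 1 - j) (β + (d : ℝ) / ((G : ℝ) ^ 4) ^ (2 * n + 2))
      ≤ 2 * (N * (ENNReal.ofReal (w (n + j)) * ((κ + κ) * FF G α j (n - j) β + C))) := by
    intro j hj
    have hj' : j ≤ n := Nat.lt_succ_iff.mp (mem_range.mp hj)
    rw [← Finset.mul_sum]
    have e1 : n + 1 - j = (n - j) + 1 := by omega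
    have e2 : j + (n - j) = n := by omega
    have h1 := hv β j (n - j) (by rw [e2]; exact hβ)
    rw [e2, ← e1] at h1
    have h2 := w2 (n + j)
    have e3 : n + 1 + j = n + j + 1 := by omega
    rw [e3]
    calc ENNReal.ofReal (w (n + j + 1)) * _ ≤ (2 * ENNReal.ofReal (w (n + j))) *
          (N * ((κ + κ) * FF G α j (n - j) β + C)) := mul_le_mul' h2 h1
      _ = _ := by ring
  have hlast : ∑ d ∈ range ((G ^ 4) ^ 2), ENNReal.ofReal (w (n + 1 + (n + 1))) *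
        FF G α (n + 1) (n + 1 - (n + 1)) (β + (d : ℝ) / ((G : ℝ) ^ 4) ^ (2 * n + 2))
      ≤ 4 * (N * (ENNReal.ofReal (w (n + n)) * ((κ + κ) * FF G α n (n - n) β + C))) := by
    rw [← Finset.mul_sum]
    have e1 : n + 1 - (n + 1) = 0 := by omega
    have e2 : n - n = 0 := by omega
    rw [e1, e2]
    have h1 := hh β n hβ
    have h2 := w2 (n + n)
    have h3 := w2 (n + n + 1)
    have e3 : n + 1 + (n + 1) = n + n + 1 + 1 := by omega
    rw [e3]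
    calc ENNReal.ofReal (w (n + n + 1 + 1)) * _ ≤ (2 * (2 * ENNReal.ofReal (w (n + n)))) *
          (N * ((κ + κ) * FF G α n 0 β + C)) :=
          mul_le_mul' (h3.trans (mul_le_mul' le_rfl h2)) h1
      _ = _ := by ring
  have hsum : ∑ d ∈ range ((G ^ 4) ^ 2), Ph G α w (n + 1) (β + (d : ℝ) / ((G : ℝ) ^ 4) ^ (2 * n + 2))
      = (∑ j ∈ range (n + 1), ∑ d ∈ range ((G ^ 4) ^ 2), ENNReal.ofReal (w (n + 1 + j)) *
        FF G α j (n + 1 - j) (β + (d : ℝ) / ((G : ℝ) ^ 4) ^ (2 * n + 2))) +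
        ∑ d ∈ range ((G ^ 4) ^ 2), ENNReal.ofReal (w (n + 1 + (n + 1))) *
        FF G α (n + 1) (n + 1 - (n + 1)) (β + (d : ℝ) / ((G : ℝ) ^ 4) ^ (2 * n + 2)) := by
    unfold Ph
    rw [Finset.sum_comm (s := range (n + 1)), ← Finset.sum_add_distrib]
    refine Finset.sum_congr rfl (fun d _ => ?_)
    rw [Finset.sum_range_succ]
  rw [hsum]
  set Y : ℕ → ℝ≥0∞ := fun j => ENNReal.ofReal (w (n + j)) * ((κ + κ) * FF G α j (n - j) β + C) with hY
  have hYn : Y n ≤ ∑ j ∈ range (n + 1), Y j :=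
    Finset.single_le_sum (f := Y) (fun _ _ => bot_le) (mem_range.mpr (Nat.lt_succ_self n))
  calc _ ≤ (∑ j ∈ range (n + 1), 2 * (N * Y j)) + 4 * (N * Y n) :=
        add_le_add (Finset.sum_le_sum hterm) hlast
    _ ≤ 2 * (N * ∑ j ∈ range (n + 1), Y j) + 4 * (N * ∑ j ∈ range (n + 1), Y j) := by
        rw [← Finset.mul_sum, ← Finset.mul_sum]
        exact add_le_add le_rfl (mul_le_mul' le_rfl (mul_le_mul' le_rfl hYn))
    _ = N * (6 * ∑ j ∈ range (n + 1), Y j) := by ring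
    _ ≤ N * (12 * κ * Ph G α w n β + 6 * C * W) := by
        refine mul_le_mul' le_rfl ?_
        have e : ∑ j ∈ range (n + 1), Y j = (κ + κ) * Ph G α w n β +
            C * ∑ j ∈ range (n + 1), ENNReal.ofReal (w (n + j)) := by
          unfold Ph
          rw [Finset.mul_sum, Finset.mul_sum, ← Finset.sum_add_distrib]
          refine Finset.sum_congr rfl (fun j _ => ?_)
          simp only [hY]
          ring
        rw [e]
        calc 6 * ((κ + κ) * Ph G α w n β + C * ∑ j ∈ range (n + 1), ENNReal.ofReal (w (n + j)))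
            ≤ 6 * ((κ + κ) * Ph G α w n β + C * W) :=
              mul_le_mul' le_rfl (add_le_add le_rfl (mul_le_mul' le_rfl hW))
          _ = _ := by ring

/-- the inductive choice, abstract form: `κ` is the slowly growing density -/
theorem core (h1 : SV1) (h2 : SV0) (h3 : SW1) (h4 : SW0) (h5 : BAK) (h6 : INIT)
    (G : ℕ) (c0 α : ℝ) (hG : 1000 ≤ G) (hc0 : 0 < c0) (hc1 : c0 ≤ 1) (hα : BAD c0 α)
    (w : ℕ → ℝ) (hw0 : ∀ l, 0 ≤ w l) (hw2 : ∀ l, w (l + 1) ≤ 2 * w l)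
    (kk : ℕ → ℝ) (hk1 : ∀ n, 1 ≤ kk n) (hkm : ∀ n, kk n ≤ kk (n + 1)) (c8 : ℝ) (hc8 : 0 ≤ c8)
    (hwk : ∀ n : ℕ, ∑ j ∈ range (n + 1), w (n + j) ≤ c8 * kk n) :
    ∃ (b : ℕ → ℝ) (β M : ℝ), 0 ≤ M ∧ (∀ n, |β - b n| ≤ 1 / ((G : ℝ) ^ 4) ^ (2 * n)) ∧
      ∀ j t : ℕ, 1 ≤ w (2 * j + t) →
        FV G α j t (b (j + t)) ≤ ENNReal.ofReal (M * kk (j + t)) := by
  obtain ⟨M1, hM1, k1⟩ := h1 G c0 hG hc0 hc1
  obtain ⟨M2, hM2, k2⟩ := h2 G c0 hG hc0 hc1
  obtain ⟨M3, hM3, k3⟩ := h3 G c0 hG hc0 hc1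
  obtain ⟨M4, hM4, k4⟩ := h4 G c0 hG hc0 hc1
  obtain ⟨i1, i2⟩ := h6 G c0 α hG hc0 hα
  set C : ℝ≥0∞ := ENNReal.ofReal M1 + ENNReal.ofReal M3 + (ENNReal.ofReal M2 + ENNReal.ofReal M4)
    with hC
  set W : ℝ≥0∞ := ENNReal.ofReal c8 with hWd
  set K : ℕ → ℝ≥0∞ := fun n => ENNReal.ofReal (kk n) with hK
  have hK1 : ∀ n, 1 ≤ K n := fun n => by
    rw [hK]
    simp only
    rw [← ENNReal.ofReal_one]
    exact ENNReal.ofReal_le_ofReal (hk1 n)
  have hKm : ∀ n, K n ≤ K (n + 1) := fun n => ENNReal.ofReal_le_ofReal (hkm n)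
  obtain ⟨κ, hκ⟩ : ∃ κ : ℝ≥0∞, κ = 1 / 48 := ⟨_, rfl⟩
  have hv : ∀ (β : ℝ) (j t : ℕ), BA ((G : ℝ) ^ 4) (j + t) β →
      ∑ d ∈ range ((G ^ 4) ^ 2), FF G α j (t + 1) (β + (d : ℝ) / ((G : ℝ) ^ 4) ^ (2 * (j + t) + 2))
        ≤ (((G ^ 4) ^ 2 : ℕ) : ℝ≥0∞) * ((κ + κ) * FF G α j t β + C) := by
    intro β j t hβ
    unfold FF
    rw [Finset.sum_add_distrib]
    refine (add_le_add (k1 α β j t hα hβ) (k3 α β j t hα hβ)).trans ?_
    rw [← hκ, ← mul_add]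
    refine mul_le_mul' le_rfl ?_
    calc κ * FV G α j t β + κ * FW G α j t β + ENNReal.ofReal M1 +
          (κ * FV G α j t β + κ * FW G α j t β + ENNReal.ofReal M3)
        = (κ + κ) * (FV G α j t β + FW G α j t β) +
          (ENNReal.ofReal M1 + ENNReal.ofReal M3) := by ring
      _ ≤ _ := by
          refine add_le_add le_rfl ?_
          rw [hC]
          exact le_self_add
  have hh : ∀ (β : ℝ) (j : ℕ), BA ((G : ℝ) ^ 4) j β →
      ∑ d ∈ range ((G ^ 4) ^ 2), FF G α (j + 1) 0 (β + (d : ℝ) / ((G : ℝ) ^ 4) ^ (2 * j + 2))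
        ≤ (((G ^ 4) ^ 2 : ℕ) : ℝ≥0∞) * ((κ + κ) * FF G α j 0 β + C) := by
    intro β j hβ
    unfold FF
    rw [Finset.sum_add_distrib]
    refine (add_le_add (k2 α β j hα hβ) (k4 α β j hα hβ)).trans ?_
    rw [← hκ, ← mul_add]
    refine mul_le_mul' le_rfl ?_
    calc κ * FV G α j 0 β + κ * FW G α j 0 β + ENNReal.ofReal M2 +
          (κ * FV G α j 0 β + κ * FW G α j 0 β + ENNReal.ofReal M4)
        = (κ + κ) * (FV G α j 0 β + FW G α j 0 β) +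
          (ENNReal.ofReal M2 + ENNReal.ofReal M4) := by ring
      _ ≤ _ := by
          refine add_le_add le_rfl ?_
          rw [hC]
          exact le_add_self
  have hW : ∀ n, ∑ j ∈ range (n + 1), ENNReal.ofReal (w (n + j)) ≤ W * K n := by
    intro n
    rw [← ENNReal.ofReal_sum_of_nonneg (fun j _ => hw0 _), hWd, hK]
    simp only
    rw [← ENNReal.ofReal_mul hc8]
    exact ENNReal.ofReal_le_ofReal (hwk n)
  have hA := fun n => claimA' G α w κ C (W * K n) hv hh hw2 n (hW n)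
  set B : ℝ≥0∞ := Ph G α w 0 0 + 24 * (C * W) with hB
  have hCt : C ≠ ⊤ := by
    rw [hC]
    simp [ENNReal.add_eq_top]
  have hWt : W ≠ ⊤ := ENNReal.ofReal_ne_top
  have hBt : B ≠ ⊤ := by
    rw [hB]
    have e1 : Ph G α w 0 0 ≠ ⊤ := by
      unfold Ph FF
      simp only [zero_add, range_one, sum_singleton, Nat.sub_zero, add_zero]
      exact ENNReal.mul_ne_top ENNReal.ofReal_ne_top (ENNReal.add_ne_top.mpr ⟨i1.ne, i2.ne⟩)
    exact ENNReal.add_ne_top.mpr ⟨e1, ENNReal.mul_ne_top (by norm_num) (ENNReal.mul_ne_top hCt hWt)⟩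
  have h24 : 24 * κ = 1 / 2 := by
    rw [hκ]
    rw [← ENNReal.toReal_eq_toReal_iff' (by simp [ENNReal.mul_eq_top]) (by simp)]
    simp
    norm_num
  have hstep : ∀ (n : ℕ) (β : ℝ), (BA ((G : ℝ) ^ 4) n β ∧ Ph G α w n β ≤ B * K n) →
      ∃ d : ℕ, d < (G ^ 4) ^ 2 ∧ (BA ((G : ℝ) ^ 4) (n + 1)
        (β + (d : ℝ) / ((G : ℝ) ^ 4) ^ (2 * n + 2)) ∧
        Ph G α w (n + 1) (β + (d : ℝ) / ((G : ℝ) ^ 4) ^ (2 * n + 2)) ≤ B * K (n + 1)) := by
    rintro n β ⟨hβ, hP⟩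
    obtain ⟨d, d1, d2, d3⟩ := digit G (Ph G α w (n + 1)) _ n β hG h5 hβ (hA n β hβ)
    refine ⟨d, d1, d2, d3.trans ?_⟩
    calc 2 * (12 * κ * Ph G α w n β + 6 * C * (W * K n))
        = (24 * κ) * Ph G α w n β + 12 * (C * W) * K n := by ring
      _ ≤ (24 * κ) * (B * K n) + (24 * κ) * ((24 * (C * W)) * K n) := by
          refine add_le_add (mul_le_mul' le_rfl hP) ?_
          rw [h24]
          have e12 : (12 : ℝ≥0∞) ≤ 1 / 2 * 24 := by
            rw [← ENNReal.toReal_le_toReal (by simp) (by simp [ENNReal.mul_eq_top])]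
            simp
            norm_num
          calc 12 * (C * W) * K n ≤ (1 / 2 * 24) * (C * W) * K n :=
                mul_le_mul' (mul_le_mul' e12 le_rfl) le_rfl
            _ = 1 / 2 * (24 * (C * W) * K n) := by ring
      _ ≤ (24 * κ) * (B * K n) + (24 * κ) * (B * K n) := by
          refine add_le_add le_rfl (mul_le_mul' le_rfl (mul_le_mul' ?_ le_rfl))
          rw [hB]
          exact le_add_self
      _ = B * K n := by
          rw [h24, ← add_mul, ENNReal.add_halves, one_mul]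
      _ ≤ B * K (n + 1) := mul_le_mul' le_rfl (hKm n)
  have h00 : BA ((G : ℝ) ^ 4) 0 0 ∧ Ph G α w 0 0 ≤ B * K 0 := by
    refine ⟨?_, ?_⟩
    · intro q p hq
      refine le_max_of_le_left ?_
      have hq1 : (1 : ℝ) ≤ q := by exact_mod_cast hq
      have hG1 : (1 : ℝ) ≤ (G : ℝ) ^ 4 := by
        have : (1 : ℝ) ≤ G := by exact_mod_cast (by omega : 1 ≤ G)
        exact one_le_pow₀ this
      rw [pow_zero, div_one]
      refine le_trans ?_ hq1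
      rw [div_le_one (by positivity)]
      linarith
    · calc Ph G α w 0 0 ≤ B := by rw [hB]; exact le_self_add
        _ = B * 1 := (mul_one _).symm
        _ ≤ B * K 0 := mul_le_mul' le_rfl (hK1 0)
  choose f hf1 hf2 using hstep
  let sq : (n : ℕ) → {β : ℝ // BA ((G : ℝ) ^ 4) n β ∧ Ph G α w n β ≤ B * K n} := fun n =>
    Nat.rec (motive := fun n => {β : ℝ // BA ((G : ℝ) ^ 4) n β ∧ Ph G α w n β ≤ B * K n}) ⟨0, h00⟩
      (fun n x => ⟨_, hf2 n x.1 x.2⟩) n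
  have hsq : ∀ n, (sq (n + 1)).1 = (sq n).1 + (f n (sq n).1 (sq n).2 : ℝ) /
      ((G : ℝ) ^ 4) ^ (2 * n + 2) := fun n => rfl
  have hG1 : (1 : ℝ) < (G : ℝ) ^ 4 := by
    have : (1 : ℝ) < G := by exact_mod_cast (by omega : 1 < G)
    exact one_lt_pow₀ this (by norm_num)
  obtain ⟨β, hβ⟩ := limit ((G : ℝ) ^ 4) hG1 (fun n => (sq n).1) (fun n => by
    refine ⟨(f n (sq n).1 (sq n).2 : ℝ), by positivity, ?_, hsq n⟩
    have := hf1 n (sq n).1 (sq n).2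
    have h8 : (f n (sq n).1 (sq n).2 : ℝ) + 1 ≤ (((G ^ 4) ^ 2 : ℕ) : ℝ) := by exact_mod_cast this
    push_cast at h8
    linarith)
  refine ⟨fun n => (sq n).1, β, B.toReal, ENNReal.toReal_nonneg, hβ, ?_⟩
  intro j t hwjt
  rw [ENNReal.ofReal_mul ENNReal.toReal_nonneg, ENNReal.ofReal_toReal hBt]
  refine le_trans ?_ (sq (j + t)).2.2
  have hmem : j ∈ range (j + t + 1) := mem_range.mpr (by omega)
  have h9 : ENNReal.ofReal (w (j + t + j)) * FF G α j (j + t - j) (sq (j + t)).1 ≤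
      Ph G α w (j + t) (sq (j + t)).1 :=
    Finset.single_le_sum (f := fun j' => ENNReal.ofReal (w (j + t + j')) *
      FF G α j' (j + t - j') (sq (j + t)).1) (fun _ _ => bot_le) hmem
  refine le_trans ?_ h9
  have e1 : j + t + j = 2 * j + t := by omega
  have e2 : j + t - j = t := by omega
  rw [e1, e2]
  have h10 : (1 : ℝ≥0∞) ≤ ENNReal.ofReal (w (2 * j + t)) := by
    rw [← ENNReal.ofReal_one]
    exact ENNReal.ofReal_le_ofReal hwjt
  calc FV G α j t (sq (j + t)).1 ≤ FF G α j t (sq (j + t)).1 := le_self_add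
    _ = 1 * FF G α j t (sq (j + t)).1 := (one_mul _).symm
    _ ≤ _ := mul_le_mul' h10 le_rfl

theorem indb (h1 : SV1) (h2 : SV0) (h3 : SW1) (h4 : SW0) (h5 : BAK) (h6 : INIT) (h7 : WGTB) :
    INDB := by
  intro L κ G c0 α hL hκm hκ1 hcnt hG hc0 hc1 hα
  obtain ⟨w, hw0, hw2, hwL, hwk⟩ := h7 L κ hL hκm hκ1 hcnt
  obtain ⟨b, β, M, hM, hb, hF⟩ := core h1 h2 h3 h4 h5 h6 G c0 α hG hc0 hc1 hα w hw0 hw2 κ hκ1
    (fun n => hκm (Nat.le_succ n)) 8 (by norm_num) hwk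
  refine ⟨b, β, M, hM, hb, fun j t k hk => ?_⟩
  refine (hF j t (hk ▸ hwL k)).trans (ENNReal.ofReal_le_ofReal ?_)
  exact mul_le_mul_of_nonneg_left (hκm (by omega)) hM

end Pool.Agent.W291.LW
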